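import Pool.Agent.W652.KC.Gen

set_option autoImplicit false

/-!
# Kawamata non-vanishing / equality of core and graded core for Veronese section rings of
graded complete intersections with arbitrary singularities

Let `S = k[x_1, …, x_n]/(f_1, …, f_c)` with weights `a_i > 0` and weighted homogeneous `f_j` of
degree `d_j > 0`, such that `O(N)` is invertible on `Proj S`: for every point `z ≠ 0` of the cone
`Spec S` the greatest common divisor of the weights of the nonzero coordinates of `z` divides `N`.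
Then `∑_{m ∣ N} m · dim (𝔪/𝔪²)_m ≥ ∑ a_i - ∑ d_j`, and the right hand side is minus the
`a`-invariant of `S` when the `f_j` form a regular sequence. Consequently `S_N ≠ 0` if
`∑ d_j < ∑ a_i` and `S` is reduced (or `N = 1`). By Hyry and Smith, for the section ring
`R = ⊕_l S_{lN}` this is the equality of core and graded core in Q1.

Idea: for `g` not dividing `N` a dimension count on the subspace `{x_i = 0 unless g ∣ a_i}` gives
`N(g) := #{j : g ∣ d_j} - #{i : g ∣ a_i} ≥ 0`. Summing `N(g)` against Euler's function and against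
the Ramanujan sum `c_g(N) ≤ φ(g)` (equality for `g ∣ N`) gives
`∑_{a_i ∣ N} a_i - ∑_{d_j ∣ N} d_j ≥ ∑ a_i - ∑ d_j`.
-/

namespace Pool.Agent.Results.MP_954e53_ag.CompleteIntersections

open MvPolynomial

variable {k : Type} [Field k] {n c : ℕ}

/-- The ring `S = k[x_1, …, x_n]/(f_1, …, f_c)`. -/
abbrev S (f : Fin c → MvPolynomial (Fin n) k) : Type :=
  MvPolynomial (Fin n) k ⧸ Ideal.span (Set.range f)

/-- `S_m`: the space of the classes in `S` of the polynomials that are weighted homogeneous of
degree `m` for the weights `a`. -/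
noncomputable def degreePart (a : Fin n → ℕ) (f : Fin c → MvPolynomial (Fin n) k) (m : ℕ) :
    Submodule k (S f) :=
  Submodule.map (Ideal.Quotient.mkₐ k (Ideal.span (Set.range f))).toLinearMap
    (weightedHomogeneousSubmodule k a m)

/-- The ideal `(f_1, …, f_c) + (x_1, …, x_n)²`; the quotient by it is `S/𝔪²`, where `𝔪` is the
ideal of `S` generated by the variables. -/
noncomputable def idealTwo (f : Fin c → MvPolynomial (Fin n) k) : Ideal (MvPolynomial (Fin n) k) :=
  Ideal.span (Set.range f) ⊔ (Ideal.span (Set.range (X : Fin n → MvPolynomial (Fin n) k))) ^ 2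

/-- `(𝔪/𝔪²)_m` for `m ≥ 1`: the space of the classes in `S/𝔪²` of the polynomials that are weighted
homogeneous of degree `m` for the weights `a`. -/
noncomputable def cotangentPart (a : Fin n → ℕ) (f : Fin c → MvPolynomial (Fin n) k) (m : ℕ) :
    Submodule k (MvPolynomial (Fin n) k ⧸ idealTwo f) :=
  Submodule.map (Ideal.Quotient.mkₐ k (idealTwo f)).toLinearMap
    (weightedHomogeneousSubmodule k a m)

/-- **Theorem.** Let `k` be algebraically closed, `a_i > 0`, `f_j` weighted homogeneous of degree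
`d_j > 0`, `N ≥ 1`, and suppose that for every common zero `z ≠ 0` of the `f_j` every common divisor
of the weights `a_i` with `z_i ≠ 0` divides `N`. Then
`∑ a_i - ∑ d_j ≤ ∑_{m ∣ N} m · dim_k (𝔪/𝔪²)_m`, and if `∑ d_j < ∑ a_i` and `N = 1` or `S` is
reduced, then `S_N ≠ 0`. -/
theorem result [IsAlgClosed k] (a : Fin n → ℕ) (d : Fin c → ℕ)
    (f : Fin c → MvPolynomial (Fin n) k) (N : ℕ) (hN : 0 < N)
    (ha : ∀ i, 0 < a i) (hd : ∀ j, 0 < d j)
    (hf : ∀ j, (f j).IsWeightedHomogeneous a (d j))
    (hX : ∀ z : Fin n → k, z ≠ 0 → (∀ j, eval z (f j) = 0) →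
      ∀ g : ℕ, (∀ i, z i ≠ 0 → g ∣ a i) → g ∣ N) :
    (∑ i, (a i : ℤ)) - ∑ j, (d j : ℤ) ≤
        ∑ m ∈ N.divisors, (m : ℤ) * (Module.finrank k (cotangentPart a f m) : ℤ) ∧
      (∑ j, d j < ∑ i, a i → N = 1 ∨ IsReduced (S f) → ∃ s ∈ degreePart a f N, s ≠ 0) :=
  ⟨W652.KC.generators N hN ha hd hf hX,
    fun h1 h2 => W652.KC.nonvanishing N hN ha hd hf hX h1 h2⟩

end Pool.Agent.Results.MP_954e53_ag.CompleteIntersections
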