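import Mathlib
import Pool.Agent.W977.CG.Main
import Pool.Agent.W555.CG.Step
import Pool.Agent.W326.CG.Dual
import Pool.Agent.W285.CG.Ev
import Pool.Agent.W764.CG.Pal
import Pool.Agent.W854.CG.Prod
import Pool.Agent.W252.CG.Comb

/-!
# The least positive degree of a Gorenstein section ring with negative a-invariant

By the theorem of Hyry and Smith recorded in the problem file, for a section ring `S` the core and
the graded core of the ideals `I_N`, `N` large, coincide if and only if `S_1 ≠ 0`. Here we prove,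
for a Gorenstein section ring of dimension `D` with negative `a`-invariant `a`, that `S_m ≠ 0` for
some `1 ≤ m ≤ 2 * ⌊(D + a) / 4⌋ + 1`. If `D ≤ 4`, and more generally if `D + a ≤ 3`, this is
`S_1 ≠ 0`. The proof is purely algebraic (Gorenstein duality modulo a system of parameters and the
palindromic numerator of the Hilbert series), with no hypothesis on the singularities.
-/

namespace Pool.Agent.Results.MP_954e53_ag.LeastDegree

open Polynomial Filter

/-- The graded algebra `S = ⊕ 𝒜 n` over the field `k` is connected and Gorenstein, of dimension `D`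
and with `a`-invariant `a`: `𝒜 0 = k`, there is a regular sequence of homogeneous elements `θ i` of
positive degrees `e i` (`i < D`) such that `S ⧸ (θ)` vanishes in large degrees and its socle (the
elements killed by all elements of positive degree) is one-dimensional, spanned by the class of a
homogeneous element `z` of degree `s`, and `a = s - ∑ e i`. -/
def IsGradedGorenstein {k S : Type} [Field k] [CommRing S] [Algebra k S] (𝒜 : ℕ → Submodule k S)
    [GradedAlgebra 𝒜] (D : ℕ) (a : ℤ) : Prop :=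
  (∀ x ∈ 𝒜 0, ∃ c : k, x = algebraMap k S c) ∧
  ∃ (e : Fin D → ℕ) (θ : Fin D → S) (s : ℕ) (z : S),
    (∀ i, 0 < e i) ∧ (∀ i, θ i ∈ 𝒜 (e i)) ∧
    (∀ i x, θ i * x ∈ Ideal.span (θ '' {j | j < i}) → x ∈ Ideal.span (θ '' {j | j < i})) ∧
    (∃ N, ∀ n, N ≤ n → ∀ x ∈ 𝒜 n, x ∈ Ideal.span (Set.range θ)) ∧
    z ∈ 𝒜 s ∧ z ∉ Ideal.span (Set.range θ) ∧
    (∀ x, (∀ n, 0 < n → ∀ y ∈ 𝒜 n, y * x ∈ Ideal.span (Set.range θ)) ↔
      ∃ c : k, x - c • z ∈ Ideal.span (Set.range θ)) ∧
    a = s - ∑ i, (e i : ℤ)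

theorem result (k S : Type) [Field k] [CommRing S] [Algebra k S] (𝒜 : ℕ → Submodule k S)
    [GradedAlgebra 𝒜] [∀ n, FiniteDimensional k (𝒜 n)] (D : ℕ) (a : ℤ)
    (hG : IsGradedGorenstein 𝒜 D a)
    (hQ : ∃ Q : ℚ[X], ∀ᶠ n in atTop, (Module.finrank k (𝒜 n) : ℚ) = Q.eval (n : ℚ)) (ha : a < 0) :
    ∃ m : ℕ, 1 ≤ m ∧ (m : ℤ) ≤ 2 * ((D + a) / 4) + 1 ∧ 𝒜 m ≠ ⊥ := by
  obtain ⟨h0, e, θ, s, z, he, hθ, hreg, hart, hz, hzJ, hsoc, rfl⟩ := hG
  exact (W977.CG.main Pool.Agent.W326.CG.T_Dual W285.CG.part Pool.Agent.W764.CG.part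
    (Pool.Agent.W854.CG.part W555.CG.partStep) Pool.Agent.W252.CG.part k S 𝒜 D h0 e θ s z he hθ hreg hart
    hz hzJ hsoc hQ ha).1

end Pool.Agent.Results.MP_954e53_ag.LeastDegree
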